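import Pool.Agent.K7.H38.FC.Fine

/-!
# Maps with an invariant bounded convex set: finely decomposable sets

Let `C` be a nonempty closed convex subset of a real normed space `X`. Suppose that for every finite set
`A ⊆ X` and every `ε > 0` the identity of `X` is a finite sum of projections `Q i = 1 - P i` such that the
norm of `x` is a monotone function of `‖P i x‖` and `‖Q i x‖`, such that `P i x + Q i y ∈ C` for `x, y ∈ C`,
and such that `‖Q i a‖ ≤ ε` for `a ∈ A`. (For instance `X = L_p[0,1]`, `1 ≤ p < ∞`, where the `Q i` are the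
restrictions to the parts of a fine partition of `[0,1]`, and `C` is a decomposable set, such as the set of
all `f` with values in a closed interval `S t`, bounded or not, for almost all `t`.)

If `C` is unbounded, then `F(C)` is meager in `N(C)`. (If `C` is bounded, then `F(C) = N(C)`.)
-/

set_option autoImplicit false

namespace Pool.Agent.Results.MP_55f1f5_an.DecomposableSets

/-- `N(C)`: the nonexpansive maps `C → C`. As a subtype of the function space `C → C` it carries the
topology of pointwise convergence. -/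
abbrev Nonexpansive {X : Type*} [NormedAddCommGroup X] (C : Set X) : Type _ :=
  {f : C → C // ∀ x y, ‖(f x : X) - f y‖ ≤ ‖(x : X) - y‖}

/-- `F(C)`: the maps in `N(C)` that leave some nonempty, closed, convex, bounded set `K ⊆ C`
invariant. -/
def InvSet {X : Type*} [NormedAddCommGroup X] [NormedSpace ℝ X] (C : Set X) : Set (Nonexpansive C) :=
  {f | ∃ K : Set X, K.Nonempty ∧ IsClosed K ∧ Convex ℝ K ∧ Bornology.IsBounded K ∧ K ⊆ C ∧
    ∀ x : C, (x : X) ∈ K → (f.1 x : X) ∈ K}

/-- `P` is a projection, and `‖x‖` is a monotone function of `‖P x‖` and `‖x - P x‖`. -/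
def IsMonotoneProjection {X : Type*} [NormedAddCommGroup X] [NormedSpace ℝ X] (P : X →L[ℝ] X) : Prop :=
  (∀ x, P (P x) = P x) ∧
    ∀ x y, ‖P x‖ ≤ ‖P y‖ → ‖x - P x‖ ≤ ‖y - P y‖ → ‖x‖ ≤ ‖y‖

/-- `C` is finely decomposable: for every finite set `A` and `ε > 0` there are finitely many monotone
projections `P i` such that the parts `x - P i x` of each `x` have the sum `x`, such that
`P i x + (y - P i y) ∈ C` for all `x, y ∈ C`, and such that `‖a - P i a‖ ≤ ε` for all `a ∈ A`. -/
def FinelyDecomposable {X : Type*} [NormedAddCommGroup X] [NormedSpace ℝ X] (C : Set X) : Prop :=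
  ∀ (A : Finset X) (ε : ℝ), 0 < ε → ∃ (m : ℕ) (P : Fin m → X →L[ℝ] X),
    (∀ i, IsMonotoneProjection (P i)) ∧
    (∀ i, ∀ x ∈ C, ∀ y ∈ C, P i x + (y - P i y) ∈ C) ∧
    (∀ i, ∀ a ∈ A, ‖a - P i a‖ ≤ ε) ∧ (∀ x, ∑ i, (x - P i x) = x)

/-- The 0-1 law for finely decomposable closed convex sets `C`: if `C` is unbounded, then `F(C)` is meager;
if `C` is bounded, then `F(C)` is everything. -/
theorem result (X : Type*) [NormedAddCommGroup X] [NormedSpace ℝ X]
    (C : Set X) (hne : C.Nonempty) (hC : IsClosed C) (hcv : Convex ℝ C) (hfine : FinelyDecomposable C) :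
    (¬ Bornology.IsBounded C → IsMeagre (InvSet C)) ∧
    (Bornology.IsBounded C → InvSet C = Set.univ) :=
  ⟨Pool.Agent.K7.H38.FC.fine_meager C hcv hne hfine,
    Pool.Agent.K7.H38.FC.bounded_univ C hC hcv hne⟩

end Pool.Agent.Results.MP_55f1f5_an.DecomposableSets
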