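import Pool.Agent.K7.H38.FC.Cov

/-!
# Maps with an invariant bounded convex set: convex sets with finite coverings

Let `C` be a closed convex subset of a real Banach space `X` and let `N(C)` be the set of the nonexpansive
maps `C → C`, with the topology of pointwise convergence. Suppose that for one point `p ∈ C` and one radius
`R > 0` the part of `C` in the closed ball of radius `R` about `p` is covered by finitely many closed balls
with centres in `C` and radius `ρ < R`. Then `F(C)`, the set of the maps in `N(C)` that leave some nonempty,
closed, convex, bounded subset of `C` invariant, contains a dense open set; in particular it is residual.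
-/

set_option autoImplicit false

namespace Pool.Agent.Results.MP_55f1f5_an.FiniteCoverings

/-- `N(C)`: the nonexpansive maps `C → C`. As a subtype of the function space `C → C` it carries the
topology of pointwise convergence. -/
abbrev Nonexpansive {X : Type*} [NormedAddCommGroup X] (C : Set X) : Type _ :=
  {f : C → C // ∀ x y, ‖(f x : X) - f y‖ ≤ ‖(x : X) - y‖}

/-- `F(C)`: the maps in `N(C)` that leave some nonempty, closed, convex, bounded set `K ⊆ C`
invariant. -/
def InvSet {X : Type*} [NormedAddCommGroup X] [NormedSpace ℝ X] (C : Set X) : Set (Nonexpansive C) :=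
  {f | ∃ K : Set X, K.Nonempty ∧ IsClosed K ∧ Convex ℝ K ∧ Bornology.IsBounded K ∧ K ⊆ C ∧
    ∀ x : C, (x : X) ∈ K → (f.1 x : X) ∈ K}

/-- `C` has a finite covering: for some `p ∈ C` and some `R > 0` the points of `C` at distance at most `R`
from `p` are covered by finitely many closed balls with centres in `C` and a radius `ρ < R`. -/
def HasFiniteCovering {X : Type*} [NormedAddCommGroup X] (C : Set X) : Prop :=
  ∃ p ∈ C, ∃ R ρ : ℝ, 0 < R ∧ ρ < R ∧ ∃ Y : Finset X, (∀ y ∈ Y, y ∈ C) ∧
    ∀ x ∈ C, ‖x - p‖ ≤ R → ∃ y ∈ Y, ‖x - y‖ ≤ ρ

/-- If the closed convex set `C` has a finite covering, then `F(C)` is residual in `N(C)`; it even contains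
a dense open subset of `N(C)`. -/
theorem result (X : Type*) [NormedAddCommGroup X] [NormedSpace ℝ X] [CompleteSpace X]
    (C : Set X) (hC : IsClosed C) (hcv : Convex ℝ C) (hcov : HasFiniteCovering C) :
    InvSet C ∈ residual (Nonexpansive C) ∧
      ∃ U : Set (Nonexpansive C), IsOpen U ∧ Dense U ∧ U ⊆ InvSet C := by
  obtain ⟨p, hp, R, ρ, h0, hρ, Y, hY, hc⟩ := hcov
  have h : Dense (interior (InvSet C)) :=
    Pool.Agent.K7.H38.FC.main C hC hcv p hp R ρ hρ h0 Y hY hc
  refine ⟨?_, interior (InvSet C), isOpen_interior, h, interior_subset⟩
  exact Filter.mem_of_superset (residual_of_dense_open isOpen_interior h) interior_subset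

end Pool.Agent.Results.MP_55f1f5_an.FiniteCoverings
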