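import Pool.Agent.K7.H38.FC.Mea
import Pool.Agent.K7.H38.FC.Lp

/-!
# Maps with an invariant bounded convex set: the 0-1 law for product sets

Let `X` be a real Banach space with projections `P 0, P 1, ...` of finite rank such that `P N x → x` for all
`x` and such that the norm of `x` is a monotone function of `‖P N x‖` and `‖x - P N x‖`. (For instance
`X = ℓ_p`, `1 ≤ p < ∞`, or `X = c₀`, or an `ℓ_p` or `c₀` sum of spaces of finite dimension, with the partial
sums `P N`.) Let `C ⊆ X` be nonempty, closed, convex, and a product set: `P N x + (y - P N y) ∈ C` for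
`x, y ∈ C`. (For instance the set of all `x ∈ ℓ_p` with `x_i ∈ S_i` for all `i`, where the `S_i` are closed
intervals, bounded or not.)

If the tails `{x - P N x : x ∈ C}` are unbounded for all `N`, then `F(C)` is meager in `N(C)`. If one of them
is bounded, then `F(C)` contains a dense open subset of `N(C)` and so is residual.
-/

set_option autoImplicit false

open Filter Topology

namespace Pool.Agent.Results.MP_55f1f5_an.ProductSets

/-- `N(C)`: the nonexpansive maps `C → C`. As a subtype of the function space `C → C` it carries the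
topology of pointwise convergence. -/
abbrev Nonexpansive {X : Type*} [NormedAddCommGroup X] (C : Set X) : Type _ :=
  {f : C → C // ∀ x y, ‖(f x : X) - f y‖ ≤ ‖(x : X) - y‖}

/-- `F(C)`: the maps in `N(C)` that leave some nonempty, closed, convex, bounded set `K ⊆ C`
invariant. -/
def InvSet {X : Type*} [NormedAddCommGroup X] [NormedSpace ℝ X] (C : Set X) : Set (Nonexpansive C) :=
  {f | ∃ K : Set X, K.Nonempty ∧ IsClosed K ∧ Convex ℝ K ∧ Bornology.IsBounded K ∧ K ⊆ C ∧
    ∀ x : C, (x : X) ∈ K → (f.1 x : X) ∈ K}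

/-- a splitting sequence: projections `P N` of finite rank with `P N x → x` for all `x`, such that `‖x‖` is
a monotone function of `‖P N x‖` and `‖x - P N x‖` -/
structure SplittingSequence {X : Type*} [NormedAddCommGroup X] [NormedSpace ℝ X]
    (P : ℕ → X →L[ℝ] X) : Prop where
  /-- `P N` is a projection -/
  proj : ∀ N x, P N (P N x) = P N x
  /-- `P N` has finite rank -/
  finiteRank : ∀ N, FiniteDimensional ℝ (LinearMap.range (P N).toLinearMap)
  /-- `P N x → x` -/
  lim : ∀ x, Tendsto (fun N => P N x) atTop (𝓝 x)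
  /-- the norm is monotone in the two parts -/
  mono : ∀ N x y, ‖P N x‖ ≤ ‖P N y‖ → ‖x - P N x‖ ≤ ‖y - P N y‖ → ‖x‖ ≤ ‖y‖

/-- `C` is a product set for `P`: heads and tails of points of `C` can be combined. -/
def IsProductSet {X : Type*} [NormedAddCommGroup X] [NormedSpace ℝ X] (P : ℕ → X →L[ℝ] X)
    (C : Set X) : Prop :=
  ∀ N, ∀ x ∈ C, ∀ y ∈ C, P N x + (y - P N y) ∈ C

/-- The 0-1 law for closed convex product sets `C`: if all tails `{x - P N x : x ∈ C}` are unbounded, then
`F(C)` is meager; if one of the tails is bounded, then `F(C)` is residual and contains a dense open set. -/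
theorem result (X : Type*) [NormedAddCommGroup X] [NormedSpace ℝ X] [CompleteSpace X]
    (P : ℕ → X →L[ℝ] X) (hP : SplittingSequence P)
    (C : Set X) (hne : C.Nonempty) (hC : IsClosed C) (hcv : Convex ℝ C) (hprod : IsProductSet P C) :
    ((∀ N, ¬ Bornology.IsBounded ((fun x => x - P N x) '' C)) → IsMeagre (InvSet C)) ∧
    ((∃ N, Bornology.IsBounded ((fun x => x - P N x) '' C)) →
      InvSet C ∈ residual (Nonexpansive C) ∧
        ∃ U : Set (Nonexpansive C), IsOpen U ∧ Dense U ∧ U ⊆ InvSet C) := by
  refine ⟨fun h => ?_, ?_⟩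
  · exact Pool.Agent.K7.H38.FC.far_meager C hcv hne P hP.proj hP.lim hP.mono hprod h
  · rintro ⟨N, hN⟩
    have h : Dense (interior (InvSet C)) :=
      Pool.Agent.K7.H38.FC.near_residual C hC hcv hne (P N) (hP.finiteRank N) hN
    refine ⟨?_, interior (InvSet C), isOpen_interior, h, interior_subset⟩
    exact Filter.mem_of_superset (residual_of_dense_open isOpen_interior h) interior_subset

/-- The case of `ℓ_p` sums, `1 ≤ p < ∞`, of spaces of finite dimension (for instance `ℓ_p` itself): the 0-1
law holds for the set `C` of all `x` with `x i ∈ S i` for all `i`, where the `S i` are closed and convex. -/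
theorem lp_case (E : ℕ → Type*) [∀ i, NormedAddCommGroup (E i)] [∀ i, NormedSpace ℝ (E i)]
    [∀ i, FiniteDimensional ℝ (E i)] (p : ENNReal) [Fact (1 ≤ p)] (hp : p ≠ ⊤)
    (S : ∀ i, Set (E i)) (hS : ∀ i, IsClosed (S i)) (hconv : ∀ i, Convex ℝ (S i))
    (C : Set (lp E p)) (hCS : C = {x | ∀ i, x i ∈ S i}) (hne : C.Nonempty) :
    IsMeagre (InvSet C) ∨ (InvSet C ∈ residual (Nonexpansive C) ∧
      ∃ U : Set (Nonexpansive C), IsOpen U ∧ Dense U ∧ U ⊆ InvSet C) := by
  have : ∀ i, CompleteSpace (E i) := fun i => FiniteDimensional.complete ℝ (E i)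
  have hP : SplittingSequence (Pool.Agent.K7.H38.FC.PS E p) :=
    ⟨Pool.Agent.K7.H38.FC.PS_proj, Pool.Agent.K7.H38.FC.PS_fin, Pool.Agent.K7.H38.FC.PS_lim hp,
      Pool.Agent.K7.H38.FC.PS_mono hp⟩
  have hcl : IsClosed C := by
    rw [hCS, Set.ofPred_forall]
    exact isClosed_iInter fun i => (hS i).preimage (lp.evalCLM ℝ E p i).continuous
  have hcv : Convex ℝ C := by
    rw [hCS]
    intro x hx y hy a b ha hb hab i
    exact hconv i (hx i) (hy i) ha hb hab
  have hprod : IsProductSet (Pool.Agent.K7.H38.FC.PS E p) C := by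
    rw [hCS]
    intro N x hx y hy i
    have h : (Pool.Agent.K7.H38.FC.PS E p N x + (y - Pool.Agent.K7.H38.FC.PS E p N y)) i
        = if i < N then x i else y i := by
      rw [lp.coeFn_add, Pi.add_apply, lp.coeFn_sub, Pi.sub_apply, Pool.Agent.K7.H38.FC.PS_coord,
        Pool.Agent.K7.H38.FC.PS_coord]
      split_ifs <;> simp
    rw [h]
    split_ifs
    · exact hx i
    · exact hy i
  obtain ⟨h1, h2⟩ := result (lp E p) (Pool.Agent.K7.H38.FC.PS E p) hP C hne hcl hcv hprod
  by_cases h : ∀ N, ¬ Bornology.IsBounded ((fun x => x - Pool.Agent.K7.H38.FC.PS E p N x) '' C)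
  · exact Or.inl (h1 h)
  · right
    push Not at h
    exact h2 h

end Pool.Agent.Results.MP_55f1f5_an.ProductSets
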